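import Pool.Agent.Work.MP_59976d_co_even.Total

/-!
The inequality of Q1 holds in every abelian group.
-/

namespace Pool.Agent.Results.MP_59976d_co.AllGroups

open Pool.Agent.Work.MP_59976d_co

/-- Let `A` and `B` be finite subsets of an abelian group `G` with `A ∩ (-B) = {0}`. Then the set
of all `a + b` with `a ∈ A`, `b ∈ B`, `a ≠ b` has at least `|A| + |B| - 3` elements. -/
theorem result (G : Type*) [AddCommGroup G] (A B : Finset G)
    (h : {x : G | x ∈ A ∧ -x ∈ B} = {0}) :
    A.card + B.card ≤ {x : G | ∃ a ∈ A, ∃ b ∈ B, a ≠ b ∧ a + b = x}.ncard + 3 :=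
  scherk_all G A B h

end Pool.Agent.Results.MP_59976d_co.AllGroups
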